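import Pool.Agent.Q266.PD9

/-!
# `ped(9 t^2 n + 9 t^2 j / p + (57 t^2 - 1)/8) ≡ 0 (mod 192)`
-/

set_option autoImplicit false

namespace Pool.Agent.Results.MP_fab899_nt.PedMod

/-- each even part occurs at most once -/
def EvenDistinct {m : ℕ} (p : Nat.Partition m) : Prop :=
  ∀ i, Even i → p.parts.count i ≤ 1

open Classical in
/-- the number of partitions of `m` in which each even part occurs at most once -/
noncomputable def ped (m : ℕ) : ℕ :=
  ((Finset.univ : Finset (Nat.Partition m)).filter EvenDistinct).card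

end Pool.Agent.Results.MP_fab899_nt.PedMod

namespace Q266.PD.EC

open Q279.QS PowerSeries Pool.Agent.Results.MP_fab899_nt.PedMod

theorem prod_wp {m : ℕ} (p : Nat.Partition m) (hp : EvenDistinct p) :
    p.parts.toFinsupp.prod wp = 1 := by
  classical
  unfold Finsupp.prod
  rw [Multiset.toFinsupp_support]
  refine Finset.prod_eq_one fun i hi => ?_
  rw [Multiset.toFinsupp_apply]
  have hc : 1 ≤ p.parts.count i := Multiset.one_le_count_iff_mem.2 (Multiset.mem_toFinset.1 hi)
  unfold wp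
  split_ifs with h h'
  · rfl
  · have := hp i h
    omega
  · rfl

theorem prod_wp_zero {m : ℕ} (p : Nat.Partition m) (hp : ¬ EvenDistinct p) :
    p.parts.toFinsupp.prod wp = 0 := by
  classical
  unfold EvenDistinct at hp
  push Not at hp
  obtain ⟨i, hi, hc⟩ := hp
  unfold Finsupp.prod
  rw [Multiset.toFinsupp_support]
  refine Finset.prod_eq_zero (i := i) ?_ ?_
  · rw [Multiset.mem_toFinset]
    exact Multiset.one_le_count_iff_mem.1 (by omega)
  · rw [Multiset.toFinsupp_apply]
    unfold wp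
    rw [if_pos hi, if_neg (by omega)]

theorem ped_eq (m : ℕ) : (ped m : ℤ) = coeff m Pd := by
  classical
  rw [Pd, Nat.Partition.coeff_genFun, ped, Finset.card_filter]
  push_cast
  refine Finset.sum_congr rfl fun p _ => ?_
  split_ifs with h
  · rw [prod_wp p h]
  · rw [prod_wp_zero p h]

end Q266.PD.EC

namespace Pool.Agent.Results.MP_fab899_nt.PedMod

/-- the general form: if a prime `p` with `(-2/p) = -1` divides `24m+19` to an odd power, then
`192 ∣ ped(9m+7)` -/
theorem general (p : ℕ) [Fact p.Prime] (hleg : legendreSym p (-2) = -1) (m : ℕ)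
    (hodd : Odd (padicValNat p (24 * m + 19))) : 192 ∣ ped (9 * m + 7) := by
  have h : (192 : ℤ) ∣ (ped (9 * m + 7) : ℤ) := by
    rw [Q266.PD.EC.ped_eq]
    refine Q266.PD.ped_main fun i j hij => ?_
    have h1 := Q266.PD.even_val hleg (24 * m + 19) (by omega)
      ⟨6 * i - 1, 3 * (4 * j - 1), by push_cast; rw [← hij]; ring⟩
    exact (Nat.not_even_iff_odd.2 hodd) h1
  exact_mod_cast h

/-- Q1, and its general form. -/
theorem result :
    (∀ (p : ℕ) [Fact p.Prime], 5 ≤ p → legendreSym p (-2) = -1 →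
      ∀ t : ℕ, 0 < t → Nat.Coprime t 6 → p ∣ t →
        ∀ n j : ℕ, 1 ≤ j → j ≤ p - 1 →
          192 ∣ ped (9 * t ^ 2 * n + 9 * t ^ 2 * j / p + (57 * t ^ 2 - 1) / 8)) ∧
    (∀ (p : ℕ) [Fact p.Prime], legendreSym p (-2) = -1 → ∀ m : ℕ,
      Odd (padicValNat p (24 * m + 19)) → 192 ∣ ped (9 * m + 7)) := by
  refine ⟨?_, fun p _ hleg m hodd => general p hleg m hodd⟩
  intro p hpf hp5 hleg t ht ht6 hpt n j hj1 hj2
  obtain ⟨t', rfl⟩ := hpt
  have hp : p.Prime := hpf.out
  have hp0 : 0 < p := hp.pos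
  have ht' : 0 < t' := Nat.pos_of_mul_pos_left ht |> fun h => by
    rcases Nat.eq_zero_or_pos t' with h0 | h0
    · rw [h0, mul_zero] at ht; exact absurd ht (lt_irrefl 0)
    · exact h0
  -- `t^2 = 24 s + 1`
  obtain ⟨s, hs⟩ : ∃ s, (p * t') ^ 2 = 24 * s + 1 := by
    have h2 : ¬ 2 ∣ p * t' := fun h => by
      have := Nat.dvd_gcd h (show 2 ∣ 6 by norm_num)
      rw [ht6] at this
      omega
    have h3 : ¬ 3 ∣ p * t' := fun h => by
      have := Nat.dvd_gcd h (show 3 ∣ 6 by norm_num)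
      rw [ht6] at this
      omega
    have h24 : (p * t') ^ 2 % 24 = 1 := by
      have h4 : (p * t') % 24 = 1 ∨ (p * t') % 24 = 5 ∨ (p * t') % 24 = 7 ∨ (p * t') % 24 = 11 ∨
        (p * t') % 24 = 13 ∨ (p * t') % 24 = 17 ∨ (p * t') % 24 = 19 ∨ (p * t') % 24 = 23 := by
        omega
      rw [Nat.pow_mod]
      rcases h4 with h | h | h | h | h | h | h | h <;> rw [h]
    exact ⟨(p * t') ^ 2 / 24, by omega⟩
  -- the index
  have hidx : 9 * (p * t') ^ 2 * n + 9 * (p * t') ^ 2 * j / p + (57 * (p * t') ^ 2 - 1) / 8 =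
      9 * ((p * t') ^ 2 * n + p * t' * t' * j + 19 * s) + 7 := by
    have h1 : 9 * (p * t') ^ 2 * j / p = 9 * (p * t' * t' * j) := by
      rw [show 9 * (p * t') ^ 2 * j = p * (9 * (p * t' * t' * j)) by ring]
      exact Nat.mul_div_cancel_left _ hp0
    have h2 : (57 * (p * t') ^ 2 - 1) / 8 = 171 * s + 7 := by
      rw [hs]; omega
    rw [h1, h2]
    ring
  rw [hidx]
  refine general p hleg _ ?_
  have hN : 24 * ((p * t') ^ 2 * n + p * t' * t' * j + 19 * s) + 19 =
      (p * t') * t' * (p * (24 * n + 19) + 24 * j) := by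
    have : 19 * (24 * s + 1) = 19 * (p * t') ^ 2 := by rw [hs]
    calc 24 * ((p * t') ^ 2 * n + p * t' * t' * j + 19 * s) + 19 =
        24 * ((p * t') ^ 2 * n) + 24 * (p * t' * t' * j) + 19 * (24 * s + 1) := by ring
      _ = _ := by rw [this]; ring
  have hnd : ¬ p ∣ p * (24 * n + 19) + 24 * j := by
    intro h
    have h1 : p ∣ 24 * j := (Nat.dvd_add_right (Dvd.intro _ rfl)).1 h
    rcases (Nat.Prime.dvd_mul hp).1 h1 with h2 | h2
    · have h3 : p ∣ 2 ^ 3 * 3 := by norm_num; exact h2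
      rcases (Nat.Prime.dvd_mul hp).1 h3 with h4 | h4
      · have := Nat.le_of_dvd (by norm_num) (hp.dvd_of_dvd_pow h4)
        omega
      · have := Nat.le_of_dvd (by norm_num) h4
        omega
    · have := Nat.le_of_dvd (by omega) h2
      omega
  have hne : p * (24 * n + 19) + 24 * j ≠ 0 := by
    intro h; rw [h] at hnd; exact hnd (dvd_zero p)
  rw [hN, padicValNat.mul (by positivity) hne, padicValNat.mul (by positivity) ht'.ne',
    padicValNat.mul hp0.ne' ht'.ne', padicValNat.self hp.one_lt,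
    padicValNat.eq_zero_of_not_dvd hnd]
  exact ⟨padicValNat p t', by ring⟩

end Pool.Agent.Results.MP_fab899_nt.PedMod
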